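import Mathlib
import Pool.Agent.Helper82.OS.Defs
import Pool.Agent.Helper82.OS.Defs2
import Pool.Agent.Helper82.OS.Defs3
import Pool.Agent.Helper82.OS.D0
import Pool.Agent.Helper82.OS.polar
import Pool.Agent.Helper82.OS.cNval
import Pool.Agent.W546.ST.Defs

/-!
# Closed forms `G0 n`, `Kn n`
-/
set_option autoImplicit false
open Matrix MeasureTheory Set Metric Filter Topology
open scoped ENNReal Nat

namespace Pool.Agent.W790.ST
open Pool.Agent.Helper82.OS Pool.Agent.W546.ST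

/-! ## `KG` -/

theorem KG : St_KG := by
  intro n hodd _
  obtain ⟨k, hk⟩ := hodd
  have hn1 : (n + 1) / 2 = k + 1 := by omega
  have hn2 : (n - 1) / 2 = k := by omega
  have g1 : Real.Gamma ((n : ℝ) + 3 / 2) =
      ((2 * n + 1)‼ : ℝ) * Real.sqrt Real.pi / 2 ^ (n + 1) := by
    have h := Real.Gamma_nat_add_half (n + 1)
    have e1 : ((n + 1 : ℕ) : ℝ) + 1 / 2 = (n : ℝ) + 3 / 2 := by push_cast; ring
    have e2 : 2 * (n + 1) - 1 = 2 * n + 1 := by omega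
    rw [e1, e2] at h
    exact h
  have g2 : Real.Gamma ((n : ℝ) + 5 / 2) =
      (2 * (n : ℝ) + 3) * ((2 * n + 1)‼ : ℝ) * Real.sqrt Real.pi / 2 ^ (n + 2) := by
    have h := Real.Gamma_nat_add_half (n + 2)
    have e1 : ((n + 2 : ℕ) : ℝ) + 1 / 2 = (n : ℝ) + 5 / 2 := by push_cast; ring
    have e2 : 2 * (n + 2) - 1 = 2 * n + 1 + 2 := by omega
    rw [e1, e2, Nat.doubleFactorial_add_two] at h
    rw [h]
    push_cast
    ring
  have g3 : Real.Gamma ((n : ℝ) + 2) = ((n + 1)! : ℝ) := by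
    have h := Real.Gamma_nat_eq_factorial (n + 1)
    have e1 : ((n + 1 : ℕ) : ℝ) + 1 = (n : ℝ) + 2 := by push_cast; ring
    rw [e1] at h
    exact h
  have hsq : Real.sqrt Real.pi ^ 2 = Real.pi := Real.sq_sqrt Real.pi_pos.le
  have hsq2 : Real.sqrt (Real.pi / 2) ^ 2 = Real.pi / 2 := Real.sq_sqrt (by positivity)
  have hD : (0 : ℝ) < ((2 * n + 1)‼ : ℝ) := by exact_mod_cast Nat.doubleFactorial_pos _
  have hd : (0 : ℝ) < (n‼ : ℝ) := by exact_mod_cast Nat.doubleFactorial_pos _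
  have hf : (0 : ℝ) < (n ! : ℝ) := by exact_mod_cast Nat.factorial_pos _
  have hf1 : (0 : ℝ) < ((n + 1)! : ℝ) := by exact_mod_cast Nat.factorial_pos _
  have hpi := Real.pi_pos
  have hn : (0 : ℝ) ≤ n := Nat.cast_nonneg n
  have hrho : rho n = ((n + 1)! : ℝ) ^ 2 * 2 ^ (2 * n + 3) /
      ((2 * (n : ℝ) + 3) * ((2 * n + 1)‼ : ℝ) ^ 2 * Real.pi) := by
    unfold rho
    rw [g1, g2, g3]
    have e : (2 * (n : ℝ) + 3) * ((2 * n + 1)‼ : ℝ) * Real.sqrt Real.pi / 2 ^ (n + 2) *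
        (((2 * n + 1)‼ : ℝ) * Real.sqrt Real.pi / 2 ^ (n + 1)) =
        ((2 * (n : ℝ) + 3) * ((2 * n + 1)‼ : ℝ) ^ 2 * Real.pi) / 2 ^ (2 * n + 3) := by
      have e3 : (2 : ℝ) ^ (2 * n + 3) = 2 ^ (n + 2) * 2 ^ (n + 1) := by
        rw [← pow_add]; congr 1; ring
      rw [e3, div_mul_div_comm]
      congr 1
      calc _ = (2 * (n : ℝ) + 3) * ((2 * n + 1)‼ : ℝ) ^ 2 * Real.sqrt Real.pi ^ 2 := by ring
        _ = _ := by rw [hsq]
    rw [e]
    field_simp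
  have hcst : cst n ^ 2 = (2 * Real.pi) ^ (2 * (k + 1)) * (Real.pi / 2 * (n‼ : ℝ) ^ 2) *
      (2 * Real.pi) ^ 2 := by
    unfold cst
    rw [hn1]
    calc _ = ((2 * Real.pi) ^ (k + 1)) ^ 2 * (Real.sqrt (Real.pi / 2) ^ 2 * (n‼ : ℝ) ^ 2) *
          (2 * Real.pi) ^ 2 := by ring
      _ = _ := by rw [hsq2, ← pow_mul, mul_comm (k + 1) 2]
  rw [hcst, hrho]
  unfold G0 Kn
  rw [hn1, hn2]
  have p1 : (4 : ℝ) ^ (2 * n + 2) = (2 ^ (2 * n + 2)) ^ 2 := by
    rw [← pow_mul, mul_comm (2 * n + 2) 2, pow_mul]; norm_num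
  have p2 : (2 : ℝ) ^ (2 * n + 2) = 2 ^ n * 2 ^ n * 4 := by
    rw [show 2 * n + 2 = n + n + 2 by ring, pow_add, pow_add]; norm_num
  have p3 : (2 : ℝ) ^ (2 * n + 3) = 2 ^ n * 2 ^ n * 8 := by
    rw [show 2 * n + 3 = n + n + 3 by ring, pow_add, pow_add]; norm_num
  have p4 : (4 : ℝ) ^ (k + 1) = (2 ^ (k + 1)) ^ 2 := by
    rw [← pow_mul, mul_comm (k + 1) 2, pow_mul]; norm_num
  have p5 : (2 * Real.pi) ^ (2 * (k + 1)) = ((2 * Real.pi) ^ (k + 1)) ^ 2 := by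
    rw [← pow_mul, mul_comm (k + 1) 2]
  rw [p1, p2, p3, p4, p5]
  have h23 : (2 * (n : ℝ) + 3) ≠ 0 := by positivity
  generalize (2 * Real.pi) ^ (k + 1) = A
  generalize (2 : ℝ) ^ (k + 1) = B
  field_simp
  ring

/-! ## `G0` -/

theorem Im (m : ℕ) :
    (∫⁻ r in Ioi (0 : ℝ), ENNReal.ofReal (Real.exp (-(r ^ 2 / 2))) * ENNReal.ofReal (r ^ m)) =
      ENNReal.ofReal (2 ^ (((m : ℝ) - 1) / 2) * Real.Gamma (((m : ℝ) + 1) / 2)) := by
  rw [← cNval_Im_cNvalx m]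
  refine lintegral_congr fun r => ?_
  congr 3
  ring

theorem gauss1 : (∫⁻ s : ℝ, ENNReal.ofReal (gt s)) = ENNReal.ofReal (Real.sqrt (2 * Real.pi)) := by
  rw [← cNval_G_cNvalx]
  refine lintegral_congr fun r => ?_
  unfold gt
  congr 2
  ring

theorem gt_m : Measurable (fun s : ℝ => ENNReal.ofReal (gt s)) := by
  unfold gt; fun_prop

theorem gw_m (k : ℕ) : Measurable (fun w : E k => ENNReal.ofReal (gw w)) := by
  unfold gw; fun_prop

theorem gaussE (k : ℕ) : (∫⁻ w : E k, ENNReal.ofReal (gw w)) =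
    ENNReal.ofReal (Real.sqrt (2 * Real.pi)) ^ k := by
  induction k with
  | zero =>
    have h : ∀ w : E 0, gw w = 1 := by
      intro w
      have : w = 0 := Subsingleton.elim _ _
      rw [this]
      simp [gw]
    simp only [h, ENNReal.ofReal_one, pow_zero, lintegral_one]
    have := (PiLp.volume_preserving_ofLp (Fin 0)).measure_preimage
      (s := (univ : Set (Fin 0 → ℝ))) MeasurableSet.univ.nullMeasurableSet
    rw [preimage_univ] at this
    rw [this]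
    simp [volume_pi]
  | succ k ih =>
    obtain ⟨ι, h1, _, h3⟩ := D0 (k := k) (EuclideanSpace.single 0 (1 : ℝ)) (by simp)
    rw [← h3.lintegral_comp (gw_m (k + 1))]
    have hz : ∀ p : ℝ × E k, ENNReal.ofReal (gw (p.1 • (EuclideanSpace.single 0 (1 : ℝ) : E (k + 1)) + ι p.2)) =
        ENNReal.ofReal (gt p.1) * ENNReal.ofReal (gw p.2) := by
      rintro ⟨s, y⟩
      have h3 : ‖s • (EuclideanSpace.single 0 (1 : ℝ) : E (k + 1)) + ι y‖ ^ 2 = s ^ 2 + ‖y‖ ^ 2 := by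
        rw [norm_add_sq_real, inner_smul_left, h1, norm_smul, ι.norm_map]
        simp
      unfold gw gt
      dsimp only
      rw [h3, ← ENNReal.ofReal_mul (Real.exp_nonneg _), ← Real.exp_add]
      congr 2
      ring
    rw [lintegral_congr hz, lintegral_prod_mul gt_m.aemeasurable (gw_m k).aemeasurable, ih,
      gauss1, pow_succ, mul_comm]

/-- `∫ |t|^n e^{-t²/2} = 2 ∫_0^∞` -/
theorem absI (n : ℕ) : (∫⁻ t : ℝ, ENNReal.ofReal (|t| ^ n) * ENNReal.ofReal (gt t)) =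
    2 * ∫⁻ r in Ioi (0 : ℝ), ENNReal.ofReal (Real.exp (-(r ^ 2 / 2))) * ENNReal.ofReal (r ^ n) := by
  set F : ℝ → ℝ≥0∞ := fun t => ENNReal.ofReal (|t| ^ n) * ENNReal.ofReal (gt t) with hF
  have hFe : ∀ t, F (-t) = F t := by
    intro t
    simp only [hF, gt, abs_neg, neg_sq]
  have h1 : (∫⁻ t : ℝ, F t) = (∫⁻ t in Iic (0 : ℝ), F t) + ∫⁻ t in Ioi (0 : ℝ), F t := by
    rw [← lintegral_add_compl F (measurableSet_Iic (a := (0 : ℝ))), compl_Iic]
  have h2 : (∫⁻ t in Iic (0 : ℝ), F t) = ∫⁻ t in Ici (0 : ℝ), F t := by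
    have hmp := (Measure.measurePreserving_neg (volume : Measure ℝ)).setLIntegral_comp_preimage_emb
      (MeasurableEquiv.neg ℝ).measurableEmbedding F (Iic (0 : ℝ))
    have hs : (Neg.neg ⁻¹' (Iic (0 : ℝ))) = Ici (0 : ℝ) := by
      ext x; simp
    rw [hs] at hmp
    rw [← hmp]
    refine lintegral_congr fun x => ?_
    exact hFe x
  have h3 : (∫⁻ t in Ici (0 : ℝ), F t) = ∫⁻ t in Ioi (0 : ℝ), F t :=
    setLIntegral_congr Ioi_ae_eq_Ici.symm
  rw [h1, h2, h3, ← two_mul]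
  congr 1
  refine setLIntegral_congr_fun measurableSet_Ioi fun x hx => ?_
  have hx' : (0 : ℝ) < x := hx
  simp only [hF, gt, abs_of_pos hx']
  rw [mul_comm]

theorem Psi_m (N : ℕ) : Measurable (fun u : ℝ => Psi N u) := by
  unfold Psi gt
  apply Measurable.lintegral_prod_right'
    (f := fun p : ℝ × ℝ => ENNReal.ofReal (Real.sqrt (p.2 ^ 2 + p.1) * |p.2| ^ (N - 1) *
      Real.exp (-(p.2 ^ 2 / 2))))
  fun_prop

/-- the full integral in `E (n+2)` -/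
theorem step2 (n : ℕ) : (∫⁻ x : E (n + 1), Psi (n + 1) (‖x‖ ^ 2) * ENNReal.ofReal (gw x)) =
    ∫⁻ z : E (n + 2), ENNReal.ofReal (‖z‖ * Real.exp (-(‖z‖ ^ 2 / 2))) * ENNReal.ofReal (|z 0| ^ n) := by
  obtain ⟨ι, h1, _, h3⟩ := D0 (k := n + 1) (EuclideanSpace.single 0 (1 : ℝ)) (by simp)
  have hgm : Measurable (fun z : E (n + 2) =>
      ENNReal.ofReal (‖z‖ * Real.exp (-(‖z‖ ^ 2 / 2))) * ENNReal.ofReal (|z 0| ^ n)) := by
    fun_prop
  rw [← h3.lintegral_comp hgm]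
  have hsy := lintegral_prod_symm (μ := (volume : Measure ℝ)) (ν := (volume : Measure (E (n + 1)))) _
    (hgm.comp h3.measurable).aemeasurable
  refine Eq.trans ?_ hsy.symm
  refine lintegral_congr fun x => ?_
  unfold Psi
  rw [← lintegral_mul_const _ (by unfold gt; fun_prop)]
  refine lintegral_congr fun t => ?_
  dsimp only [Function.comp]
  have c0 : (t • (EuclideanSpace.single 0 1 : E (n + 1 + 1)) + ι x) 0 = t := by
    have h1 := h1 x
    rw [EuclideanSpace.inner_single_left] at h1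
    simp at h1
    simp [h1]
  have hn : ‖t • (EuclideanSpace.single 0 (1 : ℝ) : E (n + 1 + 1)) + ι x‖ ^ 2 = t ^ 2 + ‖x‖ ^ 2 := by
    rw [norm_add_sq_real, inner_smul_left, h1, norm_smul, ι.norm_map]
    simp
  have hn' : ‖t • (EuclideanSpace.single 0 (1 : ℝ) : E (n + 1 + 1)) + ι x‖ =
      Real.sqrt (t ^ 2 + ‖x‖ ^ 2) := by
    rw [← hn, Real.sqrt_sq (norm_nonneg _)]
  unfold gt gw
  rw [c0, hn, hn', ← ENNReal.ofReal_mul (by positivity), ← ENNReal.ofReal_mul (by positivity)]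
  congr 1
  rw [Nat.add_sub_cancel]
  have : Real.exp (-((t ^ 2 + ‖x‖ ^ 2) / 2)) = Real.exp (-(t ^ 2 / 2)) * Real.exp (-(‖x‖ ^ 2 / 2)) := by
    rw [← Real.exp_add]
    congr 1
    ring
  rw [this]
  ring

/-- the Gaussian integral of `|z_0|^n` in `E (n+2)` -/
theorem step3 (n : ℕ) : (∫⁻ z : E (n + 2), ENNReal.ofReal (Real.exp (-(‖z‖ ^ 2 / 2))) * ENNReal.ofReal (|z 0| ^ n)) =
    (2 * ∫⁻ r in Ioi (0 : ℝ), ENNReal.ofReal (Real.exp (-(r ^ 2 / 2))) * ENNReal.ofReal (r ^ n)) *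
      ENNReal.ofReal (Real.sqrt (2 * Real.pi)) ^ (n + 1) := by
  obtain ⟨ι, h1, _, h3⟩ := D0 (k := n + 1) (EuclideanSpace.single 0 (1 : ℝ)) (by simp)
  have hgm : Measurable (fun z : E (n + 2) =>
      ENNReal.ofReal (Real.exp (-(‖z‖ ^ 2 / 2))) * ENNReal.ofReal (|z 0| ^ n)) := by
    fun_prop
  rw [← absI, ← gaussE, ← h3.lintegral_comp hgm,
    ← lintegral_prod_mul (by unfold gt; fun_prop) (gw_m (n + 1)).aemeasurable]
  refine lintegral_congr fun p => ?_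
  obtain ⟨t, x⟩ := p
  dsimp only [Function.comp]
  have c0 : (t • (EuclideanSpace.single 0 1 : E (n + 1 + 1)) + ι x) 0 = t := by
    have h1 := h1 x
    rw [EuclideanSpace.inner_single_left] at h1
    simp at h1
    simp [h1]
  have hn : ‖t • (EuclideanSpace.single 0 (1 : ℝ) : E (n + 1 + 1)) + ι x‖ ^ 2 = t ^ 2 + ‖x‖ ^ 2 := by
    rw [norm_add_sq_real, inner_smul_left, h1, norm_smul, ι.norm_map]
    simp
  unfold gt gw
  rw [c0, hn, ← ENNReal.ofReal_mul (by positivity), ← ENNReal.ofReal_mul (by positivity),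
    ← ENNReal.ofReal_mul (by positivity)]
  congr 1
  have : Real.exp (-((t ^ 2 + ‖x‖ ^ 2) / 2)) = Real.exp (-(t ^ 2 / 2)) * Real.exp (-(‖x‖ ^ 2 / 2)) := by
    rw [← Real.exp_add]
    congr 1
    ring
  rw [this]
  ring

/-- separation of the direction `e` -/
theorem step1 (n : ℕ) (e : E (n + 2)) (he : ‖e‖ = 1) :
    ∫⁻ w : E (n + 2), Psi (n + 1) (‖w‖ ^ 2 - inner ℝ w e ^ 2) * ENNReal.ofReal (gw w) =
    ENNReal.ofReal (Real.sqrt (2 * Real.pi)) *
      ∫⁻ x : E (n + 1), Psi (n + 1) (‖x‖ ^ 2) * ENNReal.ofReal (gw x) := by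
  obtain ⟨ι, h1, _, h3⟩ := D0 (k := n + 1) e he
  have hgm : Measurable (fun w : E (n + 2) =>
      Psi (n + 1) (‖w‖ ^ 2 - inner ℝ w e ^ 2) * ENNReal.ofReal (gw w)) :=
    ((Psi_m (n + 1)).comp (by fun_prop)).mul (gw_m _)
  have hgm2 : Measurable (fun x : E (n + 1) => Psi (n + 1) (‖x‖ ^ 2) * ENNReal.ofReal (gw x)) :=
    ((Psi_m (n + 1)).comp (by fun_prop)).mul (gw_m _)
  rw [← h3.lintegral_comp hgm, ← gauss1, ← lintegral_prod_mul gt_m.aemeasurable hgm2.aemeasurable]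
  refine lintegral_congr fun p => ?_
  obtain ⟨t, x⟩ := p
  dsimp only [Function.comp]
  have hn : ‖t • e + ι x‖ ^ 2 = t ^ 2 + ‖x‖ ^ 2 := by
    rw [norm_add_sq_real, inner_smul_left, h1, norm_smul, ι.norm_map, he]
    simp
  have hi : inner ℝ (t • e + ι x) e = t := by
    rw [real_inner_comm, inner_add_right, h1, inner_smul_right, real_inner_self_eq_norm_sq, he]
    simp
  unfold gt gw
  rw [hn, hi, add_sub_cancel_left]
  have : Real.exp (-((t ^ 2 + ‖x‖ ^ 2) / 2)) = Real.exp (-(t ^ 2 / 2)) * Real.exp (-(‖x‖ ^ 2 / 2)) := by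
    rw [← Real.exp_add]
    congr 1
    ring
  rw [this, ENNReal.ofReal_mul (Real.exp_nonneg _)]
  ring

theorem G0t : St_G0 := by
  intro n hodd e he
  obtain ⟨k, hk⟩ := hodd
  have hn1 : (n + 1) / 2 = k + 1 := by omega
  have hn2 : (n - 1) / 2 = k := by omega
  rw [step1 n e he, step2]
  have hg : Measurable (fun z : E (n + 2) => ENNReal.ofReal (|z 0| ^ n)) := by fun_prop
  have hh : ∀ r : ℝ, 0 < r → ∀ z : E (n + 2), ENNReal.ofReal (|(r • z) 0| ^ n) =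
      ENNReal.ofReal (r ^ n) * ENNReal.ofReal (|z 0| ^ n) := by
    intro r hr z
    rw [← ENNReal.ofReal_mul (by positivity), PiLp.smul_apply, smul_eq_mul, abs_mul, abs_of_pos hr,
      mul_pow]
  have hP1 := polar (k := n + 2) (by omega) (fun r : ℝ => ENNReal.ofReal (r * Real.exp (-(r ^ 2 / 2))))
    (by fun_prop) (fun z : E (n + 2) => ENNReal.ofReal (|z 0| ^ n)) hg n hh
  have hP2 := polar (k := n + 2) (by omega) (fun r : ℝ => ENNReal.ofReal (Real.exp (-(r ^ 2 / 2))))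
    (by fun_prop) (fun z : E (n + 2) => ENNReal.ofReal (|z 0| ^ n)) hg n hh
  rw [step3] at hP2
  have e1 : n + (n + 2 - 1) = 2 * n + 1 := by omega
  rw [e1] at hP1 hP2
  have e2 : (∫⁻ r in Ioi (0 : ℝ), ENNReal.ofReal (r * Real.exp (-(r ^ 2 / 2))) * ENNReal.ofReal (r ^ (2 * n + 1))) =
      ∫⁻ r in Ioi (0 : ℝ), ENNReal.ofReal (Real.exp (-(r ^ 2 / 2))) * ENNReal.ofReal (r ^ (2 * n + 2)) := by
    refine setLIntegral_congr_fun measurableSet_Ioi fun r hr => ?_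
    have hr' : (0 : ℝ) < r := hr
    rw [← ENNReal.ofReal_mul (by positivity), ← ENNReal.ofReal_mul (by positivity)]
    congr 1
    ring
  rw [e2, Im] at hP1
  rw [Im, Im] at hP2
  rw [hP1]
  set S := ∫⁻ f : sphere (0 : E (n + 2)) 1, ENNReal.ofReal (|(f : E (n + 2)) 0| ^ n) ∂(sg (n + 2)) with hS
  -- the values of the Gamma functions
  have v1 : (2 : ℝ) ^ ((((2 * n + 2 : ℕ) : ℝ) - 1) / 2) * Real.Gamma ((((2 * n + 2 : ℕ) : ℝ) + 1) / 2) =
      Real.sqrt (Real.pi / 2) * ((2 * n + 1)‼ : ℝ) := by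
    have h := Real.Gamma_nat_add_half (n + 1)
    have a1 : (((2 * n + 2 : ℕ) : ℝ) + 1) / 2 = ((n + 1 : ℕ) : ℝ) + 1 / 2 := by push_cast; ring
    have a2 : 2 * (n + 1) - 1 = 2 * n + 1 := by omega
    have a3 : (((2 * n + 2 : ℕ) : ℝ) - 1) / 2 = ((n + 1 : ℕ) : ℝ) - 1 / 2 := by push_cast; ring
    rw [a1, h, a2, a3, Real.rpow_sub (by norm_num), Real.rpow_natCast, ← Real.sqrt_eq_rpow,
      Real.sqrt_div Real.pi_pos.le]
    have : (0 : ℝ) < Real.sqrt 2 := by positivity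
    field_simp
  have v2 : (2 : ℝ) ^ ((((2 * n + 1 : ℕ) : ℝ) - 1) / 2) * Real.Gamma ((((2 * n + 1 : ℕ) : ℝ) + 1) / 2) =
      2 ^ n * (n ! : ℝ) := by
    have a1 : (((2 * n + 1 : ℕ) : ℝ) + 1) / 2 = (n : ℝ) + 1 := by push_cast; ring
    have a2 : (((2 * n + 1 : ℕ) : ℝ) - 1) / 2 = (n : ℝ) := by push_cast; ring
    rw [a1, a2, Real.rpow_natCast, Real.Gamma_nat_eq_factorial]
  have v3 : (2 : ℝ) ^ (((n : ℝ) - 1) / 2) * Real.Gamma (((n : ℝ) + 1) / 2) = 2 ^ k * (k ! : ℝ) := by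
    have a1 : ((n : ℝ) + 1) / 2 = (k : ℝ) + 1 := by rw [hk]; push_cast; ring
    have a2 : ((n : ℝ) - 1) / 2 = (k : ℝ) := by rw [hk]; push_cast; ring
    rw [a1, a2, Real.rpow_natCast, Real.Gamma_nat_eq_factorial]
  rw [v1]
  rw [v2, v3] at hP2
  have hpi := Real.pi_pos
  have hA0 : ENNReal.ofReal (2 ^ n * (n ! : ℝ)) ≠ 0 := by
    rw [Ne, ENNReal.ofReal_eq_zero, not_le]
    positivity
  rw [← ENNReal.mul_right_inj hA0 ENNReal.ofReal_ne_top]
  calc ENNReal.ofReal (2 ^ n * (n ! : ℝ)) * (ENNReal.ofReal (Real.sqrt (2 * Real.pi)) *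
        (ENNReal.ofReal (Real.sqrt (Real.pi / 2) * ((2 * n + 1)‼ : ℝ)) * S))
      = ENNReal.ofReal (Real.sqrt (2 * Real.pi)) * ENNReal.ofReal (Real.sqrt (Real.pi / 2) * ((2 * n + 1)‼ : ℝ)) *
        (ENNReal.ofReal (2 ^ n * (n ! : ℝ)) * S) := by ring
    _ = ENNReal.ofReal (Real.sqrt (2 * Real.pi)) * ENNReal.ofReal (Real.sqrt (Real.pi / 2) * ((2 * n + 1)‼ : ℝ)) *
        (2 * ENNReal.ofReal (2 ^ k * (k ! : ℝ)) * ENNReal.ofReal (Real.sqrt (2 * Real.pi)) ^ (n + 1)) := by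
        rw [← hP2]
    _ = ENNReal.ofReal (2 ^ n * (n ! : ℝ)) * ENNReal.ofReal (G0 n) := by
        have h2 : (2 : ℝ≥0∞) = ENNReal.ofReal 2 := by simp
        rw [h2, ← ENNReal.ofReal_pow (by positivity), ← ENNReal.ofReal_mul (by positivity),
          ← ENNReal.ofReal_mul (by positivity), ← ENNReal.ofReal_mul (by positivity),
          ← ENNReal.ofReal_mul (by positivity), ← ENNReal.ofReal_mul (by positivity)]
        congr 1
        unfold G0
        rw [hn1, hn2]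
        have b1 : Real.sqrt (2 * Real.pi) * Real.sqrt (Real.pi / 2) = Real.pi := by
          rw [← Real.sqrt_mul (by positivity)]
          have : 2 * Real.pi * (Real.pi / 2) = Real.pi ^ 2 := by ring
          rw [this, Real.sqrt_sq hpi.le]
        have b2 : Real.sqrt (2 * Real.pi) ^ (n + 1) = (2 * Real.pi) ^ (k + 1) := by
          have : n + 1 = 2 * (k + 1) := by omega
          rw [this, pow_mul, Real.sq_sqrt (by positivity)]
        rw [b2]
        have hf : (n ! : ℝ) ≠ 0 := by positivity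
        calc _ = (Real.sqrt (2 * Real.pi) * Real.sqrt (Real.pi / 2)) * ((2 * n + 1)‼ : ℝ) *
              (2 * (2 ^ k * (k ! : ℝ)) * (2 * Real.pi) ^ (k + 1)) := by ring
          _ = _ := by
            rw [b1]
            field_simp
            ring

end Pool.Agent.W790.ST
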